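import Pool.Agent.Y258.SD.U

set_option autoImplicit false
set_option linter.unusedSectionVars false

/-!
# Job C3: distant levels are in general position
-/

namespace Pool.Agent.Y283.SD

open Finset Pool.Agent.H470D4 Pool.Agent.Y258

variable {q M B n : ℕ} [Fact q.Prime]

/-- the indicator of a killed subspace depends on the rows up to `r` -/
lemma kil_dep (r R : ℕ) (hr : r < R) (V : Submodule (ZMod q) (Vec q M B)) :
    DepLT (R * M) (kil M r V) := by
  intro ω ω' h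
  unfold kil
  rw [row_dep hr h]

/-- `K` consecutive rows vanish on `V` -/
lemma EE_kills (Al : ℕ → Pth q B → Finset (Blk q B)) (hB : ∀ j ω, q ^ B ≤ 2 * (Al j ω).card)
    (h4 : 4 ≤ q) (s : ℕ) (V : Submodule (ZMod q) (Vec q M B)) (k : ℕ) :
    ∀ ω₀ : Pth q B, EE Al (s * M) (k * M) (fun ω => ∏ i ∈ range k, kil M (s + i) V ω) ω₀ ≤
      ((2 / (q : ℝ)) ^ (Module.finrank (ZMod q) V)) ^ k := by
  have hq0 : (0:ℝ) < q := by exact_mod_cast (by omega : 0 < q)
  induction k with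
  | zero =>
    intro ω₀
    rw [Nat.zero_mul, pow_zero]
    change ∏ i ∈ range 0, kil M (s + i) V ω₀ ≤ 1
    simp
  | succ k ih =>
    intro ω₀
    have e1 : (k+1) * M = k * M + M := by ring
    rw [e1, EE_add]
    have hstep : ∀ ω, Agr (s * M) ω₀ ω →
        EE Al (s * M + k * M) M (fun ω => ∏ i ∈ range (k+1), kil M (s + i) V ω) ω ≤
        (2 / (q : ℝ)) ^ (Module.finrank (ZMod q) V) * ∏ i ∈ range k, kil M (s + i) V ω := by
      intro ω _
      have e2 : (fun ω : Pth q B => ∏ i ∈ range (k+1), kil M (s + i) V ω) =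
          fun ω => (∏ i ∈ range k, kil M (s + i) V ω) * kil M (s + k) V ω := by
        funext ω
        rw [prod_range_succ]
      have e3 : s * M + k * M = (s + k) * M := by ring
      rw [e2, e3]
      have hdep : DepLT ((s + k) * M) (fun ω : Pth q B => ∏ i ∈ range k, kil M (s + i) V ω) := by
        intro ω ω' h
        refine prod_congr rfl fun i hi => ?_
        have hi' := mem_range.mp hi
        exact kil_dep (s + i) (s + k) (by omega) V ω ω' h
      rw [EE_mul_dep Al ((s + k) * M) M hdep, mul_comm]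
      refine mul_le_mul_of_nonneg_right ?_ (prod_nonneg fun i _ => kil_nonneg _ _ _ _)
      exact lemP Al hB h4 (s + k) M le_rfl ω V (by rw [Nat.sub_self, Vb_zero]; exact le_top)
    refine (EE_mono Al (s * M) (k * M) hstep).trans ?_
    rw [EE_const_mul, pow_succ, mul_comm]
    exact mul_le_mul_of_nonneg_right (ih ω₀) (by positivity)

open Classical in
/-- pairs of independent vectors of two levels with sum in the next block -/
noncomputable def PS (c : Flg q M B n) (ω : Pth q B) (l l' : Fin (n+2) → ℕ) (s β : ℕ) :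
    Finset (Vec q M B × Vec q M B) :=
  univ.filter (fun x => Exc c ω s ∧ x.1 ∈ AA c ω l s ∧ x.2 ∈ AA c ω l' s ∧
    x.1 + x.2 ∈ Vb q M B (β+1) ∧ LinearIndependent (ZMod q) ![x.1, x.2])

lemma mem_PS {c : Flg q M B n} {ω : Pth q B} {l l' : Fin (n+2) → ℕ} {s β : ℕ}
    {x : Vec q M B × Vec q M B} : x ∈ PS c ω l l' s β ↔
    (Exc c ω s ∧ x.1 ∈ AA c ω l s ∧ x.2 ∈ AA c ω l' s ∧
    x.1 + x.2 ∈ Vb q M B (β+1) ∧ LinearIndependent (ZMod q) ![x.1, x.2]) := by
  classical
  unfold PS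
  rw [mem_filter]
  exact ⟨fun h => h.2, fun h => ⟨mem_univ _, h⟩⟩

lemma Exc_dep (c : Flg q M B n) (s : ℕ) : DepLT (s * M) (fun ω : Pth q B => Exc c ω s) := by
  intro ω ω' h
  have h1 : ∀ W : Fin (n+2) → ℕ, AA c ω W s = AA c ω' W s := fun W => AA_dep c W s ω ω' h
  refine propext ⟨fun hE W => ?_, fun hE W => ?_⟩
  · rw [← h1 W]
    exact hE W
  · rw [h1 W]
    exact hE W

lemma PS_dep (c : Flg q M B n) (l l' : Fin (n+2) → ℕ) (s β : ℕ) :
    DepLT (s * M) (fun ω : Pth q B => PS c ω l l' s β) := by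
  intro ω ω' h
  have h1 : ∀ W : Fin (n+2) → ℕ, AA c ω W s = AA c ω' W s := fun W => AA_dep c W s ω ω' h
  have h2 : Exc c ω s ↔ Exc c ω' s := iff_of_eq (Exc_dep c s ω ω' h)
  ext x
  rw [mem_PS, mem_PS, h1 l, h1 l', h2]

/-- number of the pairs -/
lemma card_PS {c : Flg q M B n} (hc : IsFlags c) (ω : Pth q B) {K7 K r : ℕ} {b : Fin M}
    {l l' : Fin (n+2) → ℕ} (hK7 : K + (n + 2) ≤ K7) (hKr : K ≤ r)
    (hl : l ∈ IL M B n K7 r b) (hl' : l' ∈ IL M B n K7 r b) :
    (PS c ω l l' (r - K) b).card ≤ q ^ (n + 2 + K) := by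
  classical
  by_cases hE : Exc c ω (r - K)
  swap
  · have : PS c ω l l' (r - K) b = ∅ := by
      rw [Finset.eq_empty_iff_forall_notMem]
      intro x hx
      exact hE (mem_PS.1 hx).1
    rw [this, card_empty]
    exact Nat.zero_le _
  have hq1 : 0 < q := (Fact.out : q.Prime).pos
  rw [mem_IL] at hl hl'
  have hbot := inf_bot hc (W := l') (r := r - K) b hE (by omega)
  have h1 : (PS c ω l l' (r - K) b).card ≤
      (univ.filter (fun x : Vec q M B => x ∈ AA c ω l (r - K))).card := by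
    refine card_le_card_of_injOn (fun x => x.1) ?_ ?_
    · intro x hx
      have hx' := mem_PS.1 (mem_coe.1 hx)
      exact mem_coe.2 (mem_filter.2 ⟨mem_univ _, hx'.2.1⟩)
    · intro x hx y hy hxy
      have hx' := mem_PS.1 (mem_coe.1 hx)
      have hy' := mem_PS.1 (mem_coe.1 hy)
      have hxy' : x.1 = y.1 := hxy
      have h2 : x.2 - y.2 ∈ AA c ω l' (r - K) ⊓ Vb q M B ((b:ℕ)+1) := by
        refine ⟨Submodule.sub_mem _ hx'.2.2.1 hy'.2.2.1, ?_⟩
        have h3 := Submodule.sub_mem _ hx'.2.2.2.1 hy'.2.2.2.1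
        rw [hxy'] at h3
        have h4 : y.1 + x.2 - (y.1 + y.2) = x.2 - y.2 := by abel
        rw [h4] at h3
        exact h3
      rw [hbot, Submodule.mem_bot] at h2
      exact Prod.ext hxy' (sub_eq_zero.1 h2)
  refine h1.trans ?_
  have h2 := card_le_of_diff (AA c ω l (r - K))
    (univ.filter (fun x : Vec q M B => x ∈ AA c ω l (r - K))) (by
      intro ν hν ν' hν'
      exact Submodule.sub_mem _ (mem_filter.1 hν').2 (mem_filter.1 hν).2)
  refine h2.trans ?_
  rw [hE]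
  refine Nat.pow_le_pow_right hq1 ?_
  unfold dm
  omega

/-- the rows `s, …, s + K - 1` kill the pair -/
noncomputable def KP (M K s : ℕ) (x : Vec q M B × Vec q M B) (ω : Pth q B) : ℝ :=
  ∏ i ∈ range K, kil M (s + i) (Submodule.span (ZMod q) (Set.range ![x.1, x.2])) ω

lemma KP_nonneg (K s : ℕ) (x : Vec q M B × Vec q M B) (ω : Pth q B) : 0 ≤ KP M K s x ω :=
  prod_nonneg fun _ _ => kil_nonneg _ _ _ _

lemma KP_one {K s : ℕ} {x : Vec q M B × Vec q M B} {ω : Pth q B}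
    (h : ∀ i < K, row M ω (s + i) x.1 = 0) (h' : ∀ i < K, row M ω (s + i) x.2 = 0) :
    KP M K s x ω = 1 := by
  unfold KP
  refine prod_eq_one fun i hi => ?_
  have hi' := mem_range.mp hi
  unfold kil
  rw [if_pos]
  rw [Submodule.span_le]
  rintro v ⟨j, rfl⟩
  rw [SetLike.mem_coe, LinearMap.mem_ker]
  revert j
  rw [Fin.forall_fin_two]
  exact ⟨h i hi', h' i hi'⟩

/-- the contribution of two levels -/
noncomputable def G (c : Flg q M B n) (K r β : ℕ) (l l' : Fin (n+2) → ℕ) (ω : Pth q B) : ℝ :=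
  ∑ x ∈ PS c ω l l' (r - K) β, KP M K (r - K) x ω

lemma G_nonneg (c : Flg q M B n) (K r β : ℕ) (l l' : Fin (n+2) → ℕ) (ω : Pth q B) :
    0 ≤ G c K r β l l' ω :=
  sum_nonneg fun _ _ => KP_nonneg _ _ _ _

lemma G_dep (c : Flg q M B n) (K r β : ℕ) (hKr : K ≤ r) (l l' : Fin (n+2) → ℕ) :
    DepLT (r * M) (G c K r β l l') := by
  intro ω ω' h
  unfold G
  have h1 : PS c ω l l' (r - K) β = PS c ω' l l' (r - K) β :=
    PS_dep c l l' (r - K) β ω ω' (h.mono (Nat.mul_le_mul_right _ (Nat.sub_le _ _)))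
  rw [h1]
  refine sum_congr rfl fun x _ => ?_
  unfold KP
  refine prod_congr rfl fun i hi => ?_
  have hi' := mem_range.mp hi
  exact kil_dep (r - K + i) r (by omega) _ ω ω' h

/-- expectation of the contribution of two levels -/
lemma EE_G (Al : ℕ → Pth q B → Finset (Blk q B)) (hB : ∀ j ω, q ^ B ≤ 2 * (Al j ω).card)
    (h8 : 8 ≤ q) {c : Flg q M B n} (hc : IsFlags c) {K7 K r : ℕ} {b : Fin M}
    {l l' : Fin (n+2) → ℕ} (hK : K = n + 3) (hK7 : K + (n + 2) ≤ K7) (hKr : K ≤ r)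
    (hr : r < M * B)
    (hl : l ∈ IL M B n K7 r b) (hl' : l' ∈ IL M B n K7 r b) (ω₀ : Pth q B) :
    EE Al 0 (M * B * M) (G c K r b l l') ω₀ ≤ 4 ^ (n + 3) / q := by
  have hq0 : (0:ℝ) < q := by exact_mod_cast (by omega : 0 < q)
  have hne := Al_ne (by omega) Al hB
  rw [EE_upto Al hne (Nat.mul_le_mul_right _ hr.le) (G_dep c K r b hKr l l')]
  obtain ⟨s, rfl⟩ : ∃ s, r = s + K := ⟨r - K, by omega⟩
  have e1 : (s + K) * M = s * M + K * M := by ring
  rw [e1, EE_add, Nat.zero_add]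
  have hstep : ∀ ω, Agr 0 ω₀ ω → EE Al (s * M) (K * M) (G c K (s + K) b l l') ω ≤
      4 ^ (n + 3) / q := by
    intro ω _
    have h1 : ∀ ω', Agr (s * M) ω ω' → G c K (s + K) b l l' ω' ≤
        (fun ω' => ∑ x ∈ PS c ω l l' s b, KP M K s x ω') ω' := by
      intro ω' hω'
      unfold G
      rw [Nat.add_sub_cancel]
      have h2 : PS c ω l l' s b = PS c ω' l l' s b := PS_dep c l l' s b ω ω' hω'
      simp only [h2]
      exact le_refl _
    refine (EE_mono Al (s * M) (K * M) h1).trans ?_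
    rw [EE_sum]
    have h3 : ∀ x ∈ PS c ω l l' s b, EE Al (s * M) (K * M) (fun ω' => KP M K s x ω') ω ≤
        ((2 / (q : ℝ)) ^ 2) ^ K := by
      intro x hx
      have hx' := (mem_PS.1 hx).2.2.2.2
      have h4 := EE_kills Al hB (by omega) s
        (Submodule.span (ZMod q) (Set.range ![x.1, x.2])) K ω
      rw [finrank_span_eq_card hx', Fintype.card_fin] at h4
      exact h4
    refine (sum_le_sum h3).trans ?_
    rw [sum_const, nsmul_eq_mul]
    have h5 := card_PS hc ω hK7 hKr hl hl'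
    rw [Nat.add_sub_cancel] at h5
    have h6 : ((PS c ω l l' s b).card : ℝ) ≤ (q:ℝ) ^ (n + 2 + K) := by exact_mod_cast h5
    calc ((PS c ω l l' s b).card : ℝ) * ((2 / (q : ℝ)) ^ 2) ^ K
        ≤ (q:ℝ) ^ (n + 2 + K) * ((2 / (q : ℝ)) ^ 2) ^ K :=
          mul_le_mul_of_nonneg_right h6 (by positivity)
      _ = 4 ^ (n + 3) / q := by
          subst hK
          have e2 : (2:ℝ) ^ (2 * (n + 3)) = 4 ^ (n + 3) := by rw [pow_mul]; norm_num
          have e3 : (q:ℝ) ^ (2 * (n + 3)) = (q:ℝ) ^ (n + 2 + (n + 3)) * q := by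
            rw [← pow_succ]; congr 1; ring
          rw [← pow_mul, div_pow, e2, e3]
          have : (q:ℝ) ^ (n + 2 + (n + 3)) ≠ 0 := by positivity
          field_simp
  refine (EE_mono Al 0 (s * M) hstep).trans (le_of_eq ?_)
  exact EE_dep Al hne 0 (s * M) (g := fun _ => (4:ℝ) ^ (n + 3) / q) (fun _ _ _ => rfl) ω₀

/-- the total contribution -/
noncomputable def FF (c : Flg q M B n) (K7 K : ℕ) (ω : Pth q B) : ℝ :=
  ∑ r ∈ (range (M * B)).filter (fun r => K ≤ r), ∑ b : Fin M, ∑ l ∈ IL M B n K7 r b,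
    ∑ l' ∈ IL M B n K7 r b, G c K r b l l' ω

lemma FF_nonneg (c : Flg q M B n) (K7 K : ℕ) (ω : Pth q B) : 0 ≤ FF c K7 K ω :=
  sum_nonneg fun _ _ => sum_nonneg fun _ _ => sum_nonneg fun _ _ => sum_nonneg fun _ _ =>
    G_nonneg _ _ _ _ _ _ _

lemma G_le_FF (c : Flg q M B n) {K7 K r : ℕ} {b : Fin M} {l l' : Fin (n+2) → ℕ}
    (hr : r < M * B) (hKr : K ≤ r) (hl : l ∈ IL M B n K7 r b) (hl' : l' ∈ IL M B n K7 r b)
    (ω : Pth q B) : G c K r b l l' ω ≤ FF c K7 K ω := by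
  have h4 : G c K r b l l' ω ≤ ∑ l' ∈ IL M B n K7 r b, G c K r b l l' ω :=
    single_le_sum (f := fun l' => G c K r b l l' ω)
      (fun _ _ => G_nonneg _ _ _ _ _ _ _) hl'
  have h3 : ∑ l' ∈ IL M B n K7 r b, G c K r b l l' ω ≤
      ∑ l ∈ IL M B n K7 r b, ∑ l' ∈ IL M B n K7 r b, G c K r b l l' ω :=
    single_le_sum (f := fun l => ∑ l' ∈ IL M B n K7 r b, G c K r b l l' ω)
      (fun _ _ => sum_nonneg fun _ _ => G_nonneg _ _ _ _ _ _ _) hl
  have h2 : ∑ l ∈ IL M B n K7 r b, ∑ l' ∈ IL M B n K7 r b, G c K r b l l' ω ≤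
      ∑ b : Fin M, ∑ l ∈ IL M B n K7 r b, ∑ l' ∈ IL M B n K7 r b, G c K r b l l' ω :=
    single_le_sum (f := fun b : Fin M => ∑ l ∈ IL M B n K7 r b,
      ∑ l' ∈ IL M B n K7 r b, G c K r b l l' ω)
      (fun _ _ => sum_nonneg fun _ _ => sum_nonneg fun _ _ =>
        G_nonneg _ _ _ _ _ _ _) (mem_univ b)
  have h1 : ∑ b : Fin M, ∑ l ∈ IL M B n K7 r b, ∑ l' ∈ IL M B n K7 r b, G c K r b l l' ω ≤
      FF c K7 K ω :=
    single_le_sum (f := fun r => ∑ b : Fin M, ∑ l ∈ IL M B n K7 r b,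
      ∑ l' ∈ IL M B n K7 r b, G c K r b l l' ω)
      (fun _ _ => sum_nonneg fun _ _ => sum_nonneg fun _ _ => sum_nonneg fun _ _ =>
        G_nonneg _ _ _ _ _ _ _) (mem_filter.2 ⟨mem_range.2 hr, hKr⟩)
  exact h4.trans (h3.trans (h2.trans h1))

lemma card_IL_le (M B n K7 r β : ℕ) : (IL M B n K7 r β).card ≤ (M * B) ^ (n + 2) := by
  unfold IL
  refine (card_filter_le _ _).trans ?_
  unfold Lbox
  rw [Fintype.card_piFinset]
  simp

lemma EE_FF (Al : ℕ → Pth q B → Finset (Blk q B)) (hB : ∀ j ω, q ^ B ≤ 2 * (Al j ω).card)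
    (h8 : 8 ≤ q) {c : Flg q M B n} (hc : IsFlags c) {K7 K : ℕ}
    (hK : K = n + 3) (hK7 : K + (n + 2) ≤ K7) (ω₀ : Pth q B) :
    EE Al 0 (M * B * M) (FF c K7 K) ω₀ ≤
      4 ^ (n + 4) * ((M * B + 1 : ℕ) : ℝ) ^ (2 * n + 6) / q := by
  have hq0 : (0:ℝ) < q := by exact_mod_cast (by omega : 0 < q)
  have e0 : FF c K7 K = fun ω => ∑ r ∈ (range (M * B)).filter (fun r => K ≤ r), ∑ b : Fin M,
    ∑ l ∈ IL M B n K7 r b, ∑ l' ∈ IL M B n K7 r b, G c K r b l l' ω := rfl
  rw [e0, EE_sum]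
  have h1 : ∀ r ∈ (range (M * B)).filter (fun r => K ≤ r),
      EE Al 0 (M * B * M) (fun ω => ∑ b : Fin M, ∑ l ∈ IL M B n K7 r b,
        ∑ l' ∈ IL M B n K7 r b, G c K r b l l' ω) ω₀ ≤
      M * ((M * B : ℕ) : ℝ) ^ (2 * n + 4) * (4 ^ (n + 3) / q) := by
    intro r hr
    rw [mem_filter, mem_range] at hr
    rw [EE_sum]
    have h2 : ∀ b ∈ (univ : Finset (Fin M)),
        EE Al 0 (M * B * M) (fun ω => ∑ l ∈ IL M B n K7 r b,
          ∑ l' ∈ IL M B n K7 r b, G c K r b l l' ω) ω₀ ≤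
        ((M * B : ℕ) : ℝ) ^ (2 * n + 4) * (4 ^ (n + 3) / q) := by
      intro b _
      rw [EE_sum]
      have h3 : ∀ l ∈ IL M B n K7 r b,
          EE Al 0 (M * B * M) (fun ω => ∑ l' ∈ IL M B n K7 r b, G c K r b l l' ω) ω₀ ≤
          ((M * B : ℕ) : ℝ) ^ (n + 2) * (4 ^ (n + 3) / q) := by
        intro l hl
        rw [EE_sum]
        have h4 : ∀ l' ∈ IL M B n K7 r b,
            EE Al 0 (M * B * M) (G c K r b l l') ω₀ ≤ 4 ^ (n + 3) / q := by
          intro l' hl'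
          exact EE_G Al hB h8 hc hK hK7 hr.2 hr.1 hl hl' ω₀
        refine (sum_le_sum h4).trans ?_
        rw [sum_const, nsmul_eq_mul]
        refine mul_le_mul_of_nonneg_right ?_ (by positivity)
        exact_mod_cast card_IL_le M B n K7 r b
      refine (sum_le_sum h3).trans ?_
      rw [sum_const, nsmul_eq_mul, ← mul_assoc]
      refine mul_le_mul_of_nonneg_right ?_ (by positivity)
      rw [show 2 * n + 4 = (n + 2) + (n + 2) by ring, pow_add _ (n + 2) (n + 2)]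
      refine mul_le_mul_of_nonneg_right ?_ (by positivity)
      exact_mod_cast card_IL_le M B n K7 r b
    refine (sum_le_sum h2).trans ?_
    rw [sum_const, nsmul_eq_mul, card_univ, Fintype.card_fin, mul_assoc]
  refine (sum_le_sum h1).trans ?_
  rw [sum_const, nsmul_eq_mul]
  have h5 : (((range (M * B)).filter (fun r => K ≤ r)).card : ℝ) ≤ ((M * B : ℕ) : ℝ) := by
    have := card_filter_le (range (M * B)) (fun r => K ≤ r)
    rw [card_range] at this
    exact_mod_cast this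
  have h6 : ((M * B : ℕ) : ℝ) * (M * ((M * B : ℕ) : ℝ) ^ (2 * n + 4)) ≤
      ((M * B + 1 : ℕ) : ℝ) ^ (2 * n + 6) := by
    rcases Nat.eq_zero_or_pos B with h | h
    · subst h
      simp
    · have h7 : M ≤ M * B + 1 := by nlinarith
      have h8 : (M * B) * (M * (M * B) ^ (2 * n + 4)) ≤ (M * B + 1) ^ (2 * n + 6) := by
        calc (M * B) * (M * (M * B) ^ (2 * n + 4))
            ≤ (M * B + 1) * ((M * B + 1) * (M * B + 1) ^ (2 * n + 4)) := by
              gcongr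
              · omega
              · omega
          _ = (M * B + 1) ^ (2 * n + 6) := by ring
      exact_mod_cast h8
  calc (((range (M * B)).filter (fun r => K ≤ r)).card : ℝ) *
        (M * ((M * B : ℕ) : ℝ) ^ (2 * n + 4) * (4 ^ (n + 3) / q))
      ≤ ((M * B : ℕ) : ℝ) * (M * ((M * B : ℕ) : ℝ) ^ (2 * n + 4) * (4 ^ (n + 3) / q)) :=
        mul_le_mul_of_nonneg_right h5 (by positivity)
    _ = (((M * B : ℕ) : ℝ) * (M * ((M * B : ℕ) : ℝ) ^ (2 * n + 4))) * (4 ^ (n + 3) / q) := by ring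
    _ ≤ ((M * B + 1 : ℕ) : ℝ) ^ (2 * n + 6) * (4 ^ (n + 3) / q) :=
        mul_le_mul_of_nonneg_right h6 (by positivity)
    _ ≤ ((M * B + 1 : ℕ) : ℝ) ^ (2 * n + 6) * (4 ^ (n + 4) / q) := by
        refine mul_le_mul_of_nonneg_left ?_ (by positivity)
        refine div_le_div_of_nonneg_right ?_ hq0.le
        exact pow_le_pow_right₀ (by norm_num) (by omega)
    _ = 4 ^ (n + 4) * ((M * B + 1 : ℕ) : ℝ) ^ (2 * n + 6) / q := by ring

/-- the consequence -/
lemma FF_pair {c : Flg q M B n} (hc : IsFlags c) {K7 K : ℕ} (hK7 : n + 2 ≤ K7) (ω : Pth q B)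
    (hF : FF c K7 K ω < 1) (hE : ∀ r ≤ M * B, Exc c ω r) (r : ℕ) (hr : r < M * B) (hKr : K ≤ r) :
    PairG c K7 ω r := by
  classical
  intro β hβ l hl l' hl' _
  set b : Fin M := ⟨β, hβ⟩ with hb
  have hbv : (b : ℕ) = β := rfl
  rw [← hbv] at hl hl' ⊢
  by_contra hcon
  obtain ⟨w, hw, hw0⟩ := (Submodule.ne_bot_iff _).1 hcon
  obtain ⟨ν, hν, ν', hν', hsum⟩ := Submodule.mem_sup.1 hw.1
  have hEr := hE r hr.le
  have hI := IL_inf hc hEr hK7 hl
  have hI' := IL_inf hc hEr hK7 hl'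
  have hwV : w ∈ Vb q M B ((b:ℕ)+1) := hw.2
  by_cases hind : LinearIndependent (ZMod q) ![ν, ν']
  · -- the pair is in `PS` and is killed by all the rows
    have hmem : (ν, ν') ∈ PS c ω l l' (r - K) b := by
      rw [mem_PS]
      refine ⟨hE (r - K) (by omega), ?_, ?_, ?_, hind⟩
      · exact AA_mono c ω (fun _ => le_rfl) (Nat.sub_le _ _) hν
      · exact AA_mono c ω (fun _ => le_rfl) (Nat.sub_le _ _) hν'
      · show ν + ν' ∈ _
        rw [hsum]
        exact hwV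
    have h1 : (1:ℝ) ≤ G c K r b l l' ω := by
      unfold G
      have h2 : KP M K (r - K) (ν, ν') ω = 1 :=
        KP_one (fun i hi => (mem_AA.1 hν).2 (r - K + i) (by omega))
          (fun i hi => (mem_AA.1 hν').2 (r - K + i) (by omega))
      rw [← h2]
      exact single_le_sum (f := fun x : Vec q M B × Vec q M B => KP M K (r - K) x ω)
        (fun _ _ => KP_nonneg _ _ _ _) hmem
    have h2 : G c K r b l l' ω ≤ FF c K7 K ω := G_le_FF c hr hKr hl hl' ω
    linarith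
  · rw [LinearIndependent.pair_iff] at hind
    push Not at hind
    obtain ⟨s, t, hst, hne⟩ := hind
    -- one of the vectors is a multiple of the other one
    by_cases hs : s = 0
    · have ht : t ≠ 0 := hne hs
      rw [hs, zero_smul, zero_add] at hst
      have hν'0 : ν' = 0 := (smul_eq_zero.1 hst).resolve_left ht
      rw [hν'0, add_zero] at hsum
      have h3 : w ∈ AA c ω l r ⊓ Vb q M B ((b:ℕ)+1) := ⟨by rw [← hsum]; exact hν, hwV⟩
      rw [hI, Submodule.mem_bot] at h3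
      exact hw0 h3
    · have hνe : ν = (-(s⁻¹ * t)) • ν' := by
        have h4 : s⁻¹ • (s • ν + t • ν') = 0 := by rw [hst, smul_zero]
        rw [smul_add, smul_smul, smul_smul, inv_mul_cancel₀ hs, one_smul] at h4
        rw [neg_smul]
        exact eq_neg_of_add_eq_zero_left h4
      have h3 : w ∈ AA c ω l' r ⊓ Vb q M B ((b:ℕ)+1) := by
        refine ⟨?_, hwV⟩
        rw [← hsum, hνe]
        exact Submodule.add_mem _ (Submodule.smul_mem _ _ hν') hν'
      rw [hI', Submodule.mem_bot] at h3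
      exact hw0 h3

/-- **Job C3.** -/
theorem C3 : St_C3 := by
  intro n q _ h8 M B c hc K7 hK7
  refine ⟨FF c K7 (n + 3), fun ω => FF_nonneg c K7 (n + 3) ω, ?_, ?_⟩
  · intro Al hB ω₀
    exact EE_FF Al hB h8 hc rfl (by omega) ω₀
  · intro ω hF hE r hr hKr
    exact FF_pair hc (by omega) ω hF hE r hr hKr

end Pool.Agent.Y283.SD
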